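import Pool.Agent.W2helper7.FA.Quo

/-!
# The system `A + B = C`, `A B C = D ^ n` with `gcd (A, B, C)` a power of a prime `p`

For a fixed prime exponent `n ≥ 5` the conjecture (no positive solutions with `gcd (A, B, C) = p ^ k` if
`p` is not `1` modulo `2 n`) is true for all but finitely many primes `p`; here `n` does not divide `k`
(if `n` divides `k` then there are no solutions by Fermat's last theorem), `p = 2` is allowed, and up to
scaling there are only finitely many exceptional solutions altogether, for all `p` and `k` at once: the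
quotient `A / B` takes only finitely many values.

Proof. After division by `p ^ k` the numbers are pairwise coprime, `p` divides exactly one of them, and
the other two are `n`-th powers. So `X ^ n - U ^ n = m` with coprime `X`, `U`, where all the primes
but `p` divide `m` with an exponent which is a multiple of `n`. As `p` is not `1` modulo `n`, it does
not divide `(X ^ n - U ^ n) / (X - U)` (if `p ≠ n`), and this is an `n`-th power up to a power of `n`.
There are only finitely many such `X / U` (Darmon and Granville, here from Mordell's conjecture for the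
Fermat curves over number fields, proved in the library).
-/

set_option autoImplicit false

namespace Pool.Agent.Results.MP_aeefb1_nt.FinitelyManyPrimes

open Pool.Agent.W2helper83.BT Pool.Agent.W2helper7.FA

/-- Positive solutions of `A + B = C`, `A B C = D ^ n` with `gcd (A, B, C) = p ^ k`. -/
def Sol (n p k A B C D : ℕ) : Prop :=
  0 < A ∧ 0 < B ∧ 0 < C ∧ 0 < D ∧ A + B = C ∧ A * B * C = D ^ n ∧
    Nat.gcd A (Nat.gcd B C) = p ^ k

lemma pow_of {n a r D : ℕ} (h : a * r = D ^ n) (hc : Nat.Coprime a r) : ∃ x, a = x ^ n :=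
  exists_eq_pow_of_mul_eq_pow (Nat.isUnit_iff.2 hc) h

lemma triple {n p k m s t D : ℕ} (hp : p.Prime) (hm : m ≠ 0) (hs : s ≠ 0) (ht : t ≠ 0)
    (hms : Nat.Coprime m s) (hmt : Nat.Coprime m t) (hst : Nat.Coprime s t)
    (h : m * s * t * (p ^ k) ^ 3 = D ^ n) (hpm : p ∣ m) :
    (∃ x, s = x ^ n) ∧ (∃ y, t = y ^ n) ∧ ∀ q, q.Prime → q ≠ p → n ∣ padicValNat q m := by
  have hps : Nat.Coprime s p := (hms.coprime_dvd_left hpm).symm
  have hpt : Nat.Coprime t p := (hmt.coprime_dvd_left hpm).symm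
  have hps3 : Nat.Coprime s ((p ^ k) ^ 3) := (hps.pow_right k).pow_right 3
  have hpt3 : Nat.Coprime t ((p ^ k) ^ 3) := (hpt.pow_right k).pow_right 3
  refine ⟨?_, ?_, ?_⟩
  · refine pow_of (r := m * t * (p ^ k) ^ 3) (by rw [← h]; ring) ?_
    exact (hms.symm.mul_right hst).mul_right hps3
  · refine pow_of (r := m * s * (p ^ k) ^ 3) (by rw [← h]; ring) ?_
    exact (hmt.symm.mul_right hst.symm).mul_right hpt3
  · intro q hq hqp
    refine val_dvd (r := s * t * (p ^ k) ^ 3) (D := D) hq hm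
      (mul_ne_zero (mul_ne_zero hs ht) (pow_ne_zero _ (pow_ne_zero _ hp.ne_zero)))
      (by rw [← h]; ring) ?_
    intro h1 h2
    rcases (hq.dvd_mul).1 h2 with h3 | h3
    · rcases (hq.dvd_mul).1 h3 with h4 | h4
      · exact hq.one_lt.ne' (Nat.dvd_one.1 (hms ▸ Nat.dvd_gcd h1 h4))
      · exact hq.one_lt.ne' (Nat.dvd_one.1 (hmt ▸ Nat.dvd_gcd h1 h4))
    · have h5 := hq.dvd_of_dvd_pow (hq.dvd_of_dvd_pow h3)
      exact hqp ((Nat.prime_dvd_prime_iff_eq hq hp).1 h5)

lemma not_dvd_pred {n p : ℕ} (hn : n.Prime) (h5 : 5 ≤ n) (hp : p.Prime) (h : p % (2 * n) ≠ 1) :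
    ¬ n ∣ p - 1 := by
  intro hd
  rcases hp.eq_two_or_odd with rfl | ho
  · have := Nat.le_of_dvd (by norm_num) hd
    omega
  · have h2 : 2 ∣ p - 1 := by omega
    have hc : Nat.Coprime 2 n := by
      rw [Nat.prime_two.coprime_iff_not_dvd]
      intro h2n
      have := (Nat.prime_dvd_prime_iff_eq Nat.prime_two hn).1 h2n
      omega
    obtain ⟨j, hj⟩ := hc.mul_dvd_of_dvd_of_dvd h2 hd
    apply h
    have e : p = 1 + 2 * n * j := by
      have := hp.one_lt
      omega
    rw [e, Nat.add_mul_mod_self_left]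
    exact Nat.mod_eq_of_lt (by omega)

lemma cop_of {n x y : ℕ} (hn : 0 < n) (h : Nat.Coprime (x ^ n) (y ^ n)) :
    IsCoprime (x : ℤ) (y : ℤ) := by
  rw [Nat.isCoprime_iff_coprime]
  exact (Nat.coprime_pow_right_iff hn _ _).1 ((Nat.coprime_pow_left_iff hn _ _).1 h)

/-- the reduction -/
lemma reduce {n p : ℕ} (hn : n.Prime) (h5 : 5 ≤ n) (hp : p.Prime) (hmod : p % (2 * n) ≠ 1)
    {k A B C D : ℕ} (hk : ¬ n ∣ k) (h : Sol n p k A B C D) :
    ∃ a b : ℕ, 0 < a ∧ 0 < b ∧ Nat.Coprime a b ∧ (A : ℚ) / B = a / b ∧ p ∣ a * b * (a + b) ∧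
      ∃ X U : ℤ, FP' n n X U ∧ ((a : ℚ) / b = -((X : ℚ) / U) ^ n ∨
        (a : ℚ) / b = ((X : ℚ) / U) ^ n - 1 ∨ (a : ℚ) / b = 1 / (((X : ℚ) / U) ^ n - 1)) := by
  have hpn := not_dvd_pred hn h5 hp hmod
  obtain ⟨hA, hB, hC, hD, hs, hprod, hg⟩ := h
  have hg0 : 0 < p ^ k := pow_pos hp.pos k
  obtain ⟨a, ha⟩ : p ^ k ∣ A := hg ▸ Nat.gcd_dvd_left _ _
  obtain ⟨b, hb⟩ : p ^ k ∣ B := hg ▸ (Nat.gcd_dvd_right _ _).trans (Nat.gcd_dvd_left _ _)
  have hc : C = p ^ k * (a + b) := by rw [← hs, ha, hb, mul_add]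
  have ha0 : 0 < a := Nat.pos_of_ne_zero fun h => by rw [h, mul_zero] at ha; omega
  have hb0 : 0 < b := Nat.pos_of_ne_zero fun h => by rw [h, mul_zero] at hb; omega
  have hab : Nat.Coprime a b := by
    have h1 : p ^ k * Nat.gcd a b ∣ p ^ k * 1 := by
      rw [mul_one]
      conv_rhs => rw [← hg]
      refine Nat.dvd_gcd ?_ (Nat.dvd_gcd ?_ ?_)
      · rw [ha]; exact Nat.mul_dvd_mul_left _ (Nat.gcd_dvd_left _ _)
      · rw [hb]; exact Nat.mul_dvd_mul_left _ (Nat.gcd_dvd_right _ _)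
      · rw [hc]
        exact Nat.mul_dvd_mul_left _ (dvd_add (Nat.gcd_dvd_left _ _) (Nat.gcd_dvd_right _ _))
    exact Nat.dvd_one.1 (Nat.dvd_of_mul_dvd_mul_left hg0 h1)
  have hac : Nat.Coprime a (a + b) := by
    rw [Nat.coprime_self_add_right]; exact hab
  have hbc : Nat.Coprime b (a + b) := by
    rw [Nat.coprime_add_self_right]; exact hab.symm
  have hmain : a * b * (a + b) * (p ^ k) ^ 3 = D ^ n := by
    rw [← hprod, ha, hb, hc]; ring
  have hab0 : 0 < a + b := by omega
  have hn0 : 0 < n := hn.pos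
  have hodd : Odd n := hn.odd_of_ne_two (by omega)
  have hpd : p ∣ a * b * (a + b) := by
    by_contra hnd
    have : Fact p.Prime := ⟨hp⟩
    have e := congrArg (padicValNat p) hmain
    rw [padicValNat.mul (by positivity) (by positivity), padicValNat.eq_zero_of_not_dvd hnd,
      zero_add, ← pow_mul, padicValNat.prime_pow, padicValNat.pow] at e
    have h1 : n ∣ k * 3 := ⟨_, e⟩
    rcases (hn.dvd_mul).1 h1 with h2 | h2
    · exact hk h2
    · have := Nat.le_of_dvd (by norm_num) h2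
      omega
  have hbQ : (b : ℚ) ≠ 0 := by exact_mod_cast hb0.ne'
  have haQ : (a : ℚ) ≠ 0 := by exact_mod_cast ha0.ne'
  refine ⟨a, b, ha0, hb0, hab, ?_, hpd, ?_⟩
  · have hgQ : ((p ^ k : ℕ) : ℚ) ≠ 0 := by exact_mod_cast hg0.ne'
    rw [ha, hb, Nat.cast_mul, Nat.cast_mul, mul_div_mul_left _ _ hgQ]
  rcases (hp.dvd_mul).1 hpd with h1 | h1
  · rcases (hp.dvd_mul).1 h1 with h2 | h2
    · -- `p ∣ a`
      obtain ⟨⟨y, hy⟩, ⟨z, hz⟩, hv⟩ := triple (D := D) (n := n) (k := k) hp ha0.ne' hb0.ne'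
        hab0.ne' hab hac hbc (by rw [← hmain]) h2
      have hy0 : y ≠ 0 := by
        rintro rfl
        rw [zero_pow hn0.ne'] at hy
        omega
      have hyQ : (y : ℚ) ^ n = b := by rw [hy]; push_cast; rfl
      have hzQ : (z : ℚ) ^ n = a + b := by
        have : ((a + b : ℕ) : ℚ) = ((z ^ n : ℕ) : ℚ) := by rw [hz]
        push_cast at this
        exact this.symm
      refine ⟨z, y, quo_key hn hp hpn ?_ (by exact_mod_cast hy0) ha0.ne' ?_ hv, Or.inr (Or.inl ?_)⟩
      · exact cop_of hn0 (by rw [← hz, ← hy]; exact hbc.symm)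
      · have e1 : ((z : ℤ)) ^ n = a + b := by
          have : ((a + b : ℕ) : ℤ) = ((z ^ n : ℕ) : ℤ) := by rw [hz]
          push_cast at this
          exact this.symm
        have e2 : ((y : ℤ)) ^ n = b := by
          have : ((b : ℕ) : ℤ) = ((y ^ n : ℕ) : ℤ) := by rw [← hy]
          push_cast at this
          exact this.symm
        rw [e1, e2]
        ring
      · rw [div_pow]
        push_cast
        rw [hyQ, hzQ]
        field_simp
        ring
    · -- `p ∣ b`
      obtain ⟨⟨x, hx⟩, ⟨z, hz⟩, hv⟩ := triple (D := D) (n := n) (k := k) hp hb0.ne' ha0.ne'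
        hab0.ne' hab.symm hbc hac (by rw [← hmain]; ring) h2
      have hx0 : x ≠ 0 := by
        rintro rfl
        rw [zero_pow hn0.ne'] at hx
        omega
      have hxQ : (x : ℚ) ^ n = a := by rw [hx]; push_cast; rfl
      have hzQ : (z : ℚ) ^ n = a + b := by
        have : ((a + b : ℕ) : ℚ) = ((z ^ n : ℕ) : ℚ) := by rw [hz]
        push_cast at this
        exact this.symm
      refine ⟨z, x, quo_key hn hp hpn ?_ (by exact_mod_cast hx0) hb0.ne' ?_ hv, Or.inr (Or.inr ?_)⟩
      · exact cop_of hn0 (by rw [← hz, ← hx]; exact hac.symm)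
      · have e1 : ((z : ℤ)) ^ n = a + b := by
          have : ((a + b : ℕ) : ℤ) = ((z ^ n : ℕ) : ℤ) := by rw [hz]
          push_cast at this
          exact this.symm
        have e2 : ((x : ℤ)) ^ n = a := by
          have : ((a : ℕ) : ℤ) = ((x ^ n : ℕ) : ℤ) := by rw [← hx]
          push_cast at this
          exact this.symm
        rw [e1, e2]
        ring
      · rw [div_pow]
        push_cast
        rw [hxQ, hzQ]
        have e : ((a : ℚ) + b) / a - 1 = b / a := by
          rw [add_div, div_self haQ]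
          ring
        rw [e, one_div_div]
  · -- `p ∣ a + b`
    obtain ⟨⟨x, hx⟩, ⟨y, hy⟩, hv⟩ := triple (D := D) (n := n) (k := k) hp hab0.ne' ha0.ne'
      hb0.ne' hac.symm hbc.symm hab (by rw [← hmain]; ring) h1
    have hy0 : y ≠ 0 := by
      rintro rfl
      rw [zero_pow hn0.ne'] at hy
      omega
    have hxQ : (x : ℚ) ^ n = a := by rw [hx]; push_cast; rfl
    have hyQ : (y : ℚ) ^ n = b := by rw [hy]; push_cast; rfl
    refine ⟨x, -y, quo_key hn hp hpn ?_ (neg_ne_zero.2 (by exact_mod_cast hy0)) hab0.ne' ?_ hv,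
      Or.inl ?_⟩
    · exact (cop_of hn0 (by rw [← hx, ← hy]; exact hab)).neg_right
    · have e1 : ((x : ℤ)) ^ n = a := by
        have : ((a : ℕ) : ℤ) = ((x ^ n : ℕ) : ℤ) := by rw [← hx]
        push_cast at this
        exact this.symm
      have e2 : ((y : ℤ)) ^ n = b := by
        have : ((b : ℕ) : ℤ) = ((y ^ n : ℕ) : ℤ) := by rw [← hy]
        push_cast at this
        exact this.symm
      rw [hodd.neg_pow, e1, e2]
      push_cast
      ring
    · rw [div_pow]
      push_cast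
      rw [hodd.neg_pow, hyQ, hxQ, div_neg, neg_neg]

/-- the finiteness of the pairs -/
lemma pairs_finite (n : ℕ) (hn : n.Prime) (h5 : 5 ≤ n) :
    {x : ℕ × ℚ | x.1.Prime ∧ x.1 % (2 * n) ≠ 1 ∧ ∃ k A B C D : ℕ, ¬ n ∣ k ∧
      Sol n x.1 k A B C D ∧ x.2 = (A : ℚ) / B}.Finite := by
  have hT := quo_fin (n := n) (by omega)
  have hR := ((hT.image (fun t : ℚ => -t ^ n)).union (hT.image (fun t : ℚ => t ^ n - 1))).union
    (hT.image (fun t : ℚ => 1 / (t ^ n - 1)))
  refine (hR.biUnion fun r _ => ((r.num.natAbs * r.den * (r.num.natAbs + r.den)).primeFactors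
    |>.finite_toSet).prod (Set.finite_singleton r)).subset ?_
  rintro ⟨p, r⟩ ⟨hp, hmod, k, A, B, C, D, hk, hsol, hr⟩
  obtain ⟨a, b, ha, hb, hab, hq, hpd, X, U, hF, h3⟩ := reduce hn h5 hp hmod hk hsol
  have hr' : r = (a : ℚ) / b := hr.trans hq
  have hnum : r.num = a := by
    rw [hr']
    have := Rat.num_div_eq_of_coprime (a := (a : ℤ)) (b := (b : ℤ)) (by exact_mod_cast hb)
      (by simpa using hab)
    simpa using this
  have hden : r.den = b := by
    rw [hr']
    have := Rat.den_div_eq_of_coprime (a := (a : ℤ)) (b := (b : ℤ)) (by exact_mod_cast hb)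
      (by simpa using hab)
    simpa using this
  refine Set.mem_biUnion (x := r) ?_ ⟨?_, rfl⟩
  · rcases h3 with h3 | h3 | h3
    · exact Or.inl (Or.inl ⟨_, ⟨X, U, hF, rfl⟩, by rw [hr', h3]⟩)
    · exact Or.inl (Or.inr ⟨_, ⟨X, U, hF, rfl⟩, by rw [hr', h3]⟩)
    · exact Or.inr ⟨_, ⟨X, U, hF, rfl⟩, by rw [hr', h3]⟩
  · show p ∈ ((r.num.natAbs * r.den * (r.num.natAbs + r.den)).primeFactors : Set ℕ)
    rw [Finset.mem_coe, Nat.mem_primeFactors, hnum, hden, Int.natAbs_natCast]
    exact ⟨hp, hpd, by positivity⟩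

/-- Let `n ≥ 5` be a prime.

(1) There is a finite set `P` such that for all primes `p ∉ P` which are not `1` modulo `2 n` there are no
positive solutions of `A + B = C`, `A B C = D ^ n` with `gcd (A, B, C) = p ^ k`, `k` not divisible by
`n`.

(2) The set of the pairs `(p, A / B)`, for the primes `p` which are not `1` modulo `2 n` and the positive
solutions of `A + B = C`, `A B C = D ^ n` with `gcd (A, B, C) = p ^ k`, `k` not divisible by `n`, is
finite. -/
theorem result (n : ℕ) (hn : n.Prime) (h5 : 5 ≤ n) :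
    (∃ P : Finset ℕ, ∀ p : ℕ, p.Prime → p ∉ P → p % (2 * n) ≠ 1 →
      ∀ k A B C D : ℕ, ¬ n ∣ k → ¬ Sol n p k A B C D) ∧
    {x : ℕ × ℚ | x.1.Prime ∧ x.1 % (2 * n) ≠ 1 ∧ ∃ k A B C D : ℕ, ¬ n ∣ k ∧
      Sol n x.1 k A B C D ∧ x.2 = (A : ℚ) / B}.Finite := by
  have h := pairs_finite n hn h5
  refine ⟨⟨(h.image Prod.fst).toFinset, fun p hp hP hmod k A B C D hk hsol => hP ?_⟩, h⟩
  rw [Set.Finite.mem_toFinset]
  exact ⟨(p, (A : ℚ) / B), ⟨hp, hmod, k, A, B, C, D, hk, hsol, rfl⟩, rfl⟩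

end Pool.Agent.Results.MP_aeefb1_nt.FinitelyManyPrimes
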